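import Pool.Agent.Helper20.EQ.St5

/-!
# Project EQ (MP_cb927e_an): module EER (the error terms)
-/

set_option autoImplicit false

open MeasureTheory Set Filter Topology
open scoped ENNReal RealInnerProductSpace

namespace Pool.Agent.Helper38.EQ

open Pool.Agent.Helper68.LM (Pl BB Bd Av HL ft fm DQ)
open Pool.Agent.Helper20.RG
open Pool.Agent.Helper20.EQ
open Pool.Agent.Helper68.EP (elt GapP StGPG)

theorem eer_fh_BB {f : Pl → ℝ} (hf : BB f) (l : ℤ) : BB (fh l f) := by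
  obtain ⟨hm, K, hK, hK2⟩ := hf
  refine ⟨?_, K, ?_, ?_⟩
  · exact Measurable.ite (measurableSet_le measurable_const hm) hm measurable_const
  · intro x
    unfold fh
    split_ifs
    · exact hK x
    · simpa using (abs_nonneg _).trans (hK x)
  · intro x hx
    unfold fh
    rw [hK2 x hx]
    split_ifs <;> rfl

theorem eer_Y_meas (hYB : StYB) {φ τ : ℝ → ℝ} (hG : Graph φ τ) (c : Pl) (m : ℕ) (ℓ : ℝ) (t : ℝ)
    (hl : 0 < ℓ) (k : ℤ) {g : Pl → ℝ} (hg : BB g) : Measurable (Y (τ t) c m ℓ k g) :=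
  (hYB _ _ _ _ _ _ (hG.1 _) hl hg).1.1

theorem eer_Sa_meas (hYB : StYB) {φ τ : ℝ → ℝ} (hG : Graph φ τ) (c : Pl) (u : ℕ) (k : ℤ)
    {g : Pl → ℝ} (hg : BB g) : Measurable (Sa c φ τ u k g) := by
  unfold Sa
  refine Measurable.const_mul (Finset.measurable_sum _ fun j _ => ?_) _
  exact eer_Y_meas hYB hG _ _ _ _ (by positivity) _ hg

theorem eer_er_meas (hYB : StYB) {φ τ : ℝ → ℝ} (hG : Graph φ τ) (c : Pl) (u : ℕ) (k : ℤ)
    {g : Pl → ℝ} (hg : BB g) : Measurable (er c φ τ u k g) := by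
  unfold er
  refine ((eer_Sa_meas hYB hG c u k hg).sub (eer_Sa_meas hYB hG c (u - 1) k hg)).sub
    (Measurable.const_mul (Finset.measurable_sum _ fun j _ => ?_) _)
  unfold Zc Z sl
  exact (eer_Y_meas hYB hG _ _ _ _ (by positivity) _ hg).sub
    (eer_Y_meas hYB hG _ _ _ _ (by positivity) _ hg)

theorem eer_cheb {h : Pl → ℝ} (hm : Measurable h) {a : ℝ} (ha : 0 < a) :
    volume {x | a ≤ |h x|} ≤ ENNReal.ofReal (a ^ 2)⁻¹ * ∫⁻ x, ‖h x‖ₑ ^ 2 := by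
  have h1 : ENNReal.ofReal (a ^ 2) * volume {x | ENNReal.ofReal (a ^ 2) ≤ ‖h x‖ₑ ^ 2} ≤
      ∫⁻ x, ‖h x‖ₑ ^ 2 := mul_meas_ge_le_lintegral (by fun_prop) _
  have h2 : volume {x | a ≤ |h x|} ≤ volume {x | ENNReal.ofReal (a ^ 2) ≤ ‖h x‖ₑ ^ 2} := by
    apply measure_mono
    intro x hx
    have hx' : a ≤ |h x| := hx
    show ENNReal.ofReal (a ^ 2) ≤ ‖h x‖ₑ ^ 2
    rw [Real.enorm_eq_ofReal_abs, ← ENNReal.ofReal_pow (abs_nonneg _)]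
    exact ENNReal.ofReal_le_ofReal (pow_le_pow_left₀ ha.le hx' 2)
  have h3 : ENNReal.ofReal (a ^ 2)⁻¹ * (ENNReal.ofReal (a ^ 2) *
      volume {x | ENNReal.ofReal (a ^ 2) ≤ ‖h x‖ₑ ^ 2}) =
      volume {x | ENNReal.ofReal (a ^ 2) ≤ ‖h x‖ₑ ^ 2} := by
    rw [← mul_assoc, ← ENNReal.ofReal_mul (by positivity), inv_mul_cancel₀ (by positivity)]
    simp
  calc volume {x | a ≤ |h x|} ≤ volume {x | ENNReal.ofReal (a ^ 2) ≤ ‖h x‖ₑ ^ 2} := h2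
    _ = _ := h3.symm
    _ ≤ _ := by gcongr

/-- one class and all scales -/
theorem eer_one (hYB : StYB) {φ τ : ℝ → ℝ} (hG : Graph φ τ) (c : Pl) (C : ℝ) (hC : 0 < C)
    (hE : ∀ u W : ℕ, 2 ≤ u → ∀ g : Pl → ℝ, BB g →
      ∑' k : ℤ, ∫⁻ x, ‖Sa c φ τ u k g x - Sa c φ τ (u - 1) k g x -
        (1 / (2 : ℝ) ^ u) * ∑ j ∈ Finset.range (2 ^ u), Z (τ (tm u j)) (ce c φ u j) (mm τ u j)
          (mm τ (u - 1) (j / 2)) ((2 : ℝ) ^ W) k g x‖ₑ ^ 2 ≤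
      ENNReal.ofReal (C * (2 : ℝ) ^ (-((u : ℝ) / 2)) * (W + u + 1)) * ∫⁻ x, ‖g x‖ₑ ^ 2)
    (u : ℕ) (hu : 2 ≤ u) (l : ℤ) (g : Pl → ℝ) (hg : BB g) :
    volume {x | ∃ k : ℤ, (2 : ℝ) ^ l / (u : ℝ) ^ 2 ≤ |er c φ τ u k g x|} ≤
      ENNReal.ofReal (((4 : ℝ) ^ l)⁻¹) * (ENNReal.ofReal ((u : ℝ) ^ 4 *
        (C * (2 : ℝ) ^ (-((u : ℝ) / 2)) * (u + 1))) * ∫⁻ x, ‖g x‖ₑ ^ 2) := by
  have hu0 : (0 : ℝ) < u := by exact_mod_cast (by omega : 0 < u)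
  have ha : (0 : ℝ) < (2 : ℝ) ^ l / (u : ℝ) ^ 2 := by positivity
  have hset : {x | ∃ k : ℤ, (2 : ℝ) ^ l / (u : ℝ) ^ 2 ≤ |er c φ τ u k g x|} =
      ⋃ k : ℤ, {x | (2 : ℝ) ^ l / (u : ℝ) ^ 2 ≤ |er c φ τ u k g x|} := by
    ext x; simp
  rw [hset]
  have h4 : (((2 : ℝ) ^ l / (u : ℝ) ^ 2) ^ 2)⁻¹ = ((4 : ℝ) ^ l)⁻¹ * (u : ℝ) ^ 4 := by
    have : (4 : ℝ) ^ l = ((2 : ℝ) ^ l) ^ 2 := by
      rw [← zpow_natCast, ← zpow_mul, mul_comm, zpow_mul]; norm_num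
    rw [this]
    field_simp
  have hEu := hE u 0 hu g hg
  calc volume (⋃ k : ℤ, {x | (2 : ℝ) ^ l / (u : ℝ) ^ 2 ≤ |er c φ τ u k g x|})
      ≤ ∑' k : ℤ, volume {x | (2 : ℝ) ^ l / (u : ℝ) ^ 2 ≤ |er c φ τ u k g x|} :=
        measure_iUnion_le _
    _ ≤ ∑' k : ℤ, ENNReal.ofReal ((((2 : ℝ) ^ l / (u : ℝ) ^ 2) ^ 2)⁻¹) *
          ∫⁻ x, ‖er c φ τ u k g x‖ₑ ^ 2 :=
        ENNReal.tsum_le_tsum fun k => eer_cheb (eer_er_meas hYB hG c u k hg) ha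
    _ = ENNReal.ofReal ((((2 : ℝ) ^ l / (u : ℝ) ^ 2) ^ 2)⁻¹) *
          ∑' k : ℤ, ∫⁻ x, ‖er c φ τ u k g x‖ₑ ^ 2 := ENNReal.tsum_mul_left
    _ ≤ ENNReal.ofReal ((((2 : ℝ) ^ l / (u : ℝ) ^ 2) ^ 2)⁻¹) *
          (ENNReal.ofReal (C * (2 : ℝ) ^ (-((u : ℝ) / 2)) * ((0 : ℕ) + u + 1)) *
            ∫⁻ x, ‖g x‖ₑ ^ 2) := by
        gcongr
        exact hEu
    _ = _ := by
        rw [h4, ENNReal.ofReal_mul (by positivity), mul_assoc,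
          ← mul_assoc (ENNReal.ofReal ((u : ℝ) ^ 4)), ← ENNReal.ofReal_mul (by positivity)]
        simp

theorem eer_summable (C : ℝ) :
    Summable fun u : ℕ => (u : ℝ) ^ 4 * (C * (2 : ℝ) ^ (-((u : ℝ) / 2)) * (u + 1)) := by
  set r : ℝ := (2 : ℝ) ^ (-(1 / 2) : ℝ) with hr
  have hr0 : 0 < r := by positivity
  have hr1 : r < 1 := Real.rpow_lt_one_of_one_lt_of_neg (by norm_num) (by norm_num)
  have hn : ‖r‖ < 1 := by rwa [Real.norm_of_nonneg hr0.le]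
  have h5 := summable_pow_mul_geometric_of_norm_lt_one 5 hn
  have h4 := summable_pow_mul_geometric_of_norm_lt_one 4 hn
  have := (h5.add h4).mul_left C
  refine this.congr fun u => ?_
  have hx : (2 : ℝ) ^ (-((u : ℝ) / 2)) = r ^ u := by
    rw [hr, ← Real.rpow_natCast, ← Real.rpow_mul (by norm_num)]
    congr 1; ring
  rw [hx]
  ring

/-- all classes and all scales -/
theorem eer_all (hYB : StYB) {φ τ : ℝ → ℝ} (hG : Graph φ τ) (c : Pl) (C : ℝ) (hC : 0 < C)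
    (hE : ∀ u W : ℕ, 2 ≤ u → ∀ g : Pl → ℝ, BB g →
      ∑' k : ℤ, ∫⁻ x, ‖Sa c φ τ u k g x - Sa c φ τ (u - 1) k g x -
        (1 / (2 : ℝ) ^ u) * ∑ j ∈ Finset.range (2 ^ u), Z (τ (tm u j)) (ce c φ u j) (mm τ u j)
          (mm τ (u - 1) (j / 2)) ((2 : ℝ) ^ W) k g x‖ₑ ^ 2 ≤
      ENNReal.ofReal (C * (2 : ℝ) ^ (-((u : ℝ) / 2)) * (W + u + 1)) * ∫⁻ x, ‖g x‖ₑ ^ 2)
    (l : ℤ) (g : Pl → ℝ) (hg : BB g) :
    volume {x | ∃ (k : ℤ) (u : ℕ), 2 ≤ u ∧ (2 : ℝ) ^ l / (u : ℝ) ^ 2 ≤ |er c φ τ u k g x|} ≤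
      ENNReal.ofReal (((4 : ℝ) ^ l)⁻¹) * (ENNReal.ofReal (∑' u : ℕ, (u : ℝ) ^ 4 *
        (C * (2 : ℝ) ^ (-((u : ℝ) / 2)) * (u + 1))) * ∫⁻ x, ‖g x‖ₑ ^ 2) := by
  have hsub : {x | ∃ (k : ℤ) (u : ℕ), 2 ≤ u ∧
      (2 : ℝ) ^ l / (u : ℝ) ^ 2 ≤ |er c φ τ u k g x|} ⊆
      ⋃ u : ℕ, (if 2 ≤ u then {x | ∃ k : ℤ, (2 : ℝ) ^ l / (u : ℝ) ^ 2 ≤ |er c φ τ u k g x|}
        else ∅) := by
    rintro x ⟨k, u, hu, hx⟩
    refine mem_iUnion.2 ⟨u, ?_⟩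
    rw [if_pos hu]
    exact ⟨k, hx⟩
  calc volume {x | ∃ (k : ℤ) (u : ℕ), 2 ≤ u ∧
        (2 : ℝ) ^ l / (u : ℝ) ^ 2 ≤ |er c φ τ u k g x|} ≤ _ := measure_mono hsub
    _ ≤ ∑' u : ℕ, volume (if 2 ≤ u then {x | ∃ k : ℤ, (2 : ℝ) ^ l / (u : ℝ) ^ 2 ≤
          |er c φ τ u k g x|} else (∅ : Set Pl)) := measure_iUnion_le _
    _ ≤ ∑' u : ℕ, ENNReal.ofReal (((4 : ℝ) ^ l)⁻¹) * (ENNReal.ofReal ((u : ℝ) ^ 4 *
          (C * (2 : ℝ) ^ (-((u : ℝ) / 2)) * (u + 1))) * ∫⁻ x, ‖g x‖ₑ ^ 2) := by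
        refine ENNReal.tsum_le_tsum fun u => ?_
        by_cases hu : 2 ≤ u
        · rw [if_pos hu]
          exact eer_one hYB hG c C hC hE u hu l g hg
        · rw [if_neg hu]; simp
    _ = _ := by
        rw [ENNReal.tsum_mul_left, ENNReal.tsum_mul_right,
          ENNReal.ofReal_tsum_of_nonneg (fun u => by positivity) (eer_summable C)]

/-- the sum over the heights at one point -/
theorem eer_point (p : ℝ) (hp : 2 < p) (y : ℝ) (hy : 0 ≤ y) :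
    ∑' l : ℤ, ENNReal.ofReal ((2 : ℝ) ^ ((p - 2) * l)) *
      ENNReal.ofReal (if (2 : ℝ) ^ (l - 1) ≤ y then y else 0) ^ 2 ≤
      ENNReal.ofReal ((2 : ℝ) ^ (p - 2) * (1 - (2 : ℝ) ^ (-(p - 2)))⁻¹) *
        ENNReal.ofReal y ^ p := by
  rcases hy.eq_or_lt with h0 | h0
  · subst h0
    have : ∀ l : ℤ, ENNReal.ofReal ((2 : ℝ) ^ ((p - 2) * l)) *
      ENNReal.ofReal (if (2 : ℝ) ^ (l - 1) ≤ 0 then (0 : ℝ) else 0) ^ 2 = 0 := by
      intro l; simp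
    simp [this]
  · obtain ⟨n, hn1, hn2⟩ := exists_mem_Ico_zpow h0 (by norm_num : (1 : ℝ) < 2)
    set ρ : ℝ := (2 : ℝ) ^ (-(p - 2)) with hρ
    have hρ0 : 0 < ρ := by positivity
    have hρ1 : ρ < 1 := Real.rpow_lt_one_of_one_lt_of_neg (by norm_num) (by linarith)
    set F : ℤ → ℝ≥0∞ := fun l => if l ≤ n + 1 then ENNReal.ofReal ((2 : ℝ) ^ ((p - 2) * l)) *
      ENNReal.ofReal y ^ 2 else 0 with hF
    have h1 : ∑' l : ℤ, ENNReal.ofReal ((2 : ℝ) ^ ((p - 2) * l)) *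
      ENNReal.ofReal (if (2 : ℝ) ^ (l - 1) ≤ y then y else 0) ^ 2 ≤ ∑' l : ℤ, F l := by
      refine ENNReal.tsum_le_tsum fun l => ?_
      by_cases hl : (2 : ℝ) ^ (l - 1) ≤ y
      · have h2 : (2 : ℝ) ^ (l - 1) < (2 : ℝ) ^ (n + 1) := lt_of_le_of_lt hl hn2
        have h3 : l - 1 < n + 1 := (zpow_lt_zpow_iff_right₀ (by norm_num : (1 : ℝ) < 2)).1 h2
        have h4 : l ≤ n + 1 := by omega
        simp only [hF]
        rw [if_pos hl, if_pos h4]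
      · rw [if_neg hl]; simp
    refine h1.trans ?_
    have hinj : Function.Injective (fun m : ℕ => n + 1 - (m : ℤ)) := by
      intro a b hab
      have : n + 1 - (a : ℤ) = n + 1 - (b : ℤ) := hab
      omega
    have hsupp : Function.support F ⊆ range (fun m : ℕ => n + 1 - (m : ℤ)) := by
      intro l hl
      have hl' : l ≤ n + 1 := by
        by_contra h
        apply hl
        simp only [hF]
        rw [if_neg h]
      exact ⟨(n + 1 - l).toNat, by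
        show n + 1 - (((n + 1 - l).toNat : ℕ) : ℤ) = l
        omega⟩
    rw [← hinj.tsum_eq hsupp]
    have h5 : ∀ m : ℕ, F (n + 1 - (m : ℤ)) =
        ENNReal.ofReal ((2 : ℝ) ^ ((p - 2) * (n + 1)) * y ^ 2) * ENNReal.ofReal ρ ^ m := by
      intro m
      simp only [hF]
      rw [if_pos (by omega), ← ENNReal.ofReal_pow h0.le, ← ENNReal.ofReal_mul (by positivity),
        ← ENNReal.ofReal_pow hρ0.le, ← ENNReal.ofReal_mul (by positivity)]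
      congr 1
      have : (2 : ℝ) ^ ((p - 2) * ((n + 1 - (m : ℤ) : ℤ) : ℝ)) =
          (2 : ℝ) ^ ((p - 2) * (n + 1)) * ρ ^ m := by
        rw [hρ, ← Real.rpow_natCast, ← Real.rpow_mul (by norm_num), ← Real.rpow_add (by norm_num)]
        congr 1
        push_cast
        ring
      rw [this]; ring
    simp_rw [h5]
    rw [ENNReal.tsum_mul_left, ENNReal.tsum_geometric]
    have h6 : (1 - ENNReal.ofReal ρ)⁻¹ = ENNReal.ofReal ((1 - ρ)⁻¹) := by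
      rw [ENNReal.ofReal_inv_of_pos (by linarith), ENNReal.ofReal_sub _ hρ0.le, ENNReal.ofReal_one]
    rw [h6, ENNReal.ofReal_rpow_of_pos h0, ← ENNReal.ofReal_mul (by positivity),
      ← ENNReal.ofReal_mul (by
        have : 0 < (1 - ρ)⁻¹ := inv_pos.2 (by linarith)
        positivity)]
    apply ENNReal.ofReal_le_ofReal
    have hinv : 0 < (1 - ρ)⁻¹ := inv_pos.2 (by linarith)
    have h7 : (2 : ℝ) ^ ((p - 2) * ((n : ℝ) + 1)) ≤ (2 * y) ^ (p - 2) := by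
      have : (2 : ℝ) ^ ((p - 2) * ((n : ℝ) + 1)) = ((2 : ℝ) ^ (n + 1)) ^ (p - 2) := by
        rw [mul_comm, Real.rpow_mul (by norm_num)]
        congr 1
        rw [← Real.rpow_intCast]
        push_cast
        rfl
      rw [this]
      apply Real.rpow_le_rpow (by positivity) _ (by linarith)
      rw [zpow_add_one₀ (by norm_num)]
      linarith
    have h8 : (2 * y) ^ (p - 2) * y ^ 2 = (2 : ℝ) ^ (p - 2) * y ^ p := by
      rw [Real.mul_rpow (by norm_num) h0.le, mul_assoc]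
      congr 1
      rw [← Real.rpow_natCast, ← Real.rpow_add h0]
      congr 1
      push_cast
      ring
    calc (2 : ℝ) ^ ((p - 2) * ((n : ℝ) + 1)) * y ^ 2 * (1 - ρ)⁻¹
        ≤ (2 * y) ^ (p - 2) * y ^ 2 * (1 - ρ)⁻¹ := by gcongr
      _ = (2 : ℝ) ^ (p - 2) * (1 - ρ)⁻¹ * y ^ p := by rw [h8]; ring

/-- module EER -/
theorem hEER (hYB : StYB) (hERR : StERR) (hGPG : StGPG) : StEER := by
  intro φ τ A p c hG hA hGP hp2 hp3
  have hp0 : 0 < p := by linarith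
  obtain ⟨C, hC, hE⟩ := hERR φ τ (A ^ (1 / p)) p c hG (hGPG τ A p hA hp0 hGP)
    (by positivity) hp0
  set B : ℝ := ∑' u : ℕ, (u : ℝ) ^ 4 * (C * (2 : ℝ) ^ (-((u : ℝ) / 2)) * (u + 1)) with hB
  have hB0 : 0 ≤ B := tsum_nonneg fun u => by positivity
  set C₂ : ℝ := (2 : ℝ) ^ (p - 2) * (1 - (2 : ℝ) ^ (-(p - 2)))⁻¹ with hC2
  have hρ1 : (2 : ℝ) ^ (-(p - 2)) < 1 :=
    Real.rpow_lt_one_of_one_lt_of_neg (by norm_num) (by linarith)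
  have hC20 : 0 < C₂ := mul_pos (by positivity) (inv_pos.2 (by linarith))
  refine ⟨(B + 1) * C₂, by positivity, fun f hf hf0 => ?_⟩
  have hstep : ∀ l : ℤ, ENNReal.ofReal ((2 : ℝ) ^ (p * l)) * volume {x | ∃ (k : ℤ) (u : ℕ), 2 ≤ u ∧
        (2 : ℝ) ^ l / (u : ℝ) ^ 2 ≤ |er c φ τ u k (fh l f) x|} ≤
      ENNReal.ofReal (B + 1) * ∫⁻ x, ENNReal.ofReal ((2 : ℝ) ^ ((p - 2) * l)) *
        ENNReal.ofReal (if (2 : ℝ) ^ (l - 1) ≤ f x then f x else 0) ^ 2 := by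
    intro l
    have h1 := eer_all hYB hG c C hC hE l (fh l f) (eer_fh_BB hf l)
    have h2 : ∀ x, ‖fh l f x‖ₑ ^ 2 =
        ENNReal.ofReal (if (2 : ℝ) ^ (l - 1) ≤ f x then f x else 0) ^ 2 := by
      intro x
      rw [Real.enorm_eq_ofReal_abs, abs_of_nonneg]
      · rfl
      · unfold fh; split_ifs
        · exact hf0 x
        · exact le_rfl
    have h3 : ENNReal.ofReal ((2 : ℝ) ^ (p * l)) * ENNReal.ofReal (((4 : ℝ) ^ l)⁻¹) =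
        ENNReal.ofReal ((2 : ℝ) ^ ((p - 2) * l)) := by
      rw [← ENNReal.ofReal_mul (by positivity)]
      congr 1
      have : (4 : ℝ) ^ l = (2 : ℝ) ^ (2 * (l : ℝ)) := by
        rw [Real.rpow_mul (by norm_num), Real.rpow_intCast]
        norm_num
      rw [this, ← Real.rpow_neg (by norm_num), ← Real.rpow_add (by norm_num)]
      congr 1
      ring
    calc ENNReal.ofReal ((2 : ℝ) ^ (p * l)) * volume {x | ∃ (k : ℤ) (u : ℕ), 2 ≤ u ∧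
          (2 : ℝ) ^ l / (u : ℝ) ^ 2 ≤ |er c φ τ u k (fh l f) x|}
        ≤ ENNReal.ofReal ((2 : ℝ) ^ (p * l)) * (ENNReal.ofReal (((4 : ℝ) ^ l)⁻¹) *
            (ENNReal.ofReal B * ∫⁻ x, ‖fh l f x‖ₑ ^ 2)) := by gcongr
      _ = ENNReal.ofReal B * (ENNReal.ofReal ((2 : ℝ) ^ ((p - 2) * l)) *
            ∫⁻ x, ‖fh l f x‖ₑ ^ 2) := by
          rw [← mul_assoc, h3]; ring
      _ ≤ ENNReal.ofReal (B + 1) * (ENNReal.ofReal ((2 : ℝ) ^ ((p - 2) * l)) *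
            ∫⁻ x, ‖fh l f x‖ₑ ^ 2) := by
          gcongr
          linarith
      _ = _ := by
          rw [lintegral_const_mul' _ _ ENNReal.ofReal_ne_top]
          simp_rw [h2]
  have hmeas : ∀ l : ℤ, Measurable fun x => ENNReal.ofReal ((2 : ℝ) ^ ((p - 2) * l)) *
        ENNReal.ofReal (if (2 : ℝ) ^ (l - 1) ≤ f x then f x else 0) ^ 2 := by
    intro l
    have := (eer_fh_BB hf l).1
    have h : Measurable fun x => (if (2 : ℝ) ^ (l - 1) ≤ f x then f x else 0) := this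
    fun_prop
  calc ∑' l : ℤ, ENNReal.ofReal ((2 : ℝ) ^ (p * l)) * volume {x | ∃ (k : ℤ) (u : ℕ), 2 ≤ u ∧
        (2 : ℝ) ^ l / (u : ℝ) ^ 2 ≤ |er c φ τ u k (fh l f) x|}
      ≤ ∑' l : ℤ, ENNReal.ofReal (B + 1) * ∫⁻ x, ENNReal.ofReal ((2 : ℝ) ^ ((p - 2) * l)) *
        ENNReal.ofReal (if (2 : ℝ) ^ (l - 1) ≤ f x then f x else 0) ^ 2 :=
        ENNReal.tsum_le_tsum hstep
    _ = ENNReal.ofReal (B + 1) * ∫⁻ x, ∑' l : ℤ, ENNReal.ofReal ((2 : ℝ) ^ ((p - 2) * l)) *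
        ENNReal.ofReal (if (2 : ℝ) ^ (l - 1) ≤ f x then f x else 0) ^ 2 := by
        rw [ENNReal.tsum_mul_left, lintegral_tsum fun l => (hmeas l).aemeasurable]
    _ ≤ ENNReal.ofReal (B + 1) * ∫⁻ x, ENNReal.ofReal C₂ * ENNReal.ofReal (f x) ^ p := by
        gcongr with x
        exact eer_point p hp2 (f x) (hf0 x)
    _ = _ := by
        rw [lintegral_const_mul' _ _ ENNReal.ofReal_ne_top, ← mul_assoc,
          ← ENNReal.ofReal_mul (by positivity)]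

end Pool.Agent.Helper38.EQ
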